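import Pool.Agent.R959.KN6

set_option autoImplicit false

/-!
# The critical parameter of the bidirectional `k`-neighbour graph is of order `√d`

For every dimension `d ≥ 1` we show `√(2d) ≤ k_c(d) ≤ 20 √d`, where `k_c(d)` is the least `k` for
which the bidirectional `k`-neighbour graph on `ℤ^d` percolates. Hence `k_c(d) = Θ(√d)`.

The definitions are in `Pool/Agent/R959/KN1.lean`: `Dir d` (the `2d` directions), `stp` (unit
vector of a direction), `rev` (opposite direction), `law` (independent uniformly random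
`k`-subsets of directions), `graph` (the `k`-BnG), `theta` (`θ(k,d)`), `kc` (`k_c(d)`).
-/

namespace Pool.Agent.Results.MP_8219fb_pr.CriticalSqrt

open Pool.Agent.R959.KN

theorem result : ∀ d : ℕ, 1 ≤ d →
    Real.sqrt (2 * d) ≤ (kc d : ℝ) ∧ (kc d : ℝ) ≤ 20 * Real.sqrt d := by
  intro d hd
  have hd1 : (1 : ℝ) ≤ d := by exact_mod_cast hd
  have hs0 : 0 ≤ Real.sqrt d := Real.sqrt_nonneg _
  have hs2 : Real.sqrt d * Real.sqrt d = d := Real.mul_self_sqrt (by linarith)
  have hne : {k : ℕ | 1 ≤ k ∧ k ≤ 2 * d ∧ 0 < theta k d}.Nonempty :=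
    ⟨2 * d, by omega, le_rfl, theta_full hd⟩
  constructor
  · have hmem := Nat.sInf_mem hne
    obtain ⟨h1, h2, h3⟩ := hmem
    change 1 ≤ kc d at h1
    change kc d ≤ 2 * d at h2
    change 0 < theta (kc d) d at h3
    have h4 : 2 * d ≤ kc d * (kc d - 1) := by
      by_contra hlt
      rw [theta_zero hd h2 (not_le.1 hlt)] at h3
      exact lt_irrefl _ h3
    have h5 : 2 * d ≤ kc d * kc d := h4.trans (Nat.mul_le_mul_left _ (Nat.sub_le _ _))
    have h6 : (2 * d : ℝ) ≤ (kc d : ℝ) * (kc d : ℝ) := by exact_mod_cast h5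
    rw [Real.sqrt_le_left (by positivity)]
    rw [sq]; exact h6
  · rcases Nat.lt_or_ge d 100 with h | h
    · have h1 : kc d ≤ 2 * d := (Nat.sInf_mem hne).2.1
      have h2 : (kc d : ℝ) ≤ 2 * d := by exact_mod_cast h1
      have h3 : Real.sqrt d ≤ 10 := by
        rw [Real.sqrt_le_left (by norm_num)]
        have : (d : ℝ) ≤ 100 := by exact_mod_cast h.le
        linarith
      nlinarith
    · have hd' : (100 : ℝ) ≤ d := by exact_mod_cast h
      have hsq : (10 : ℝ) ≤ Real.sqrt d := by
        rw [show (10 : ℝ) = Real.sqrt 100 by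
          rw [show (100 : ℝ) = 10 ^ 2 by norm_num, Real.sqrt_sq (by norm_num)]]
        exact Real.sqrt_le_sqrt hd'
      set k : ℕ := ⌈14 * Real.sqrt d⌉₊ + 1 with hk
      have h1 : 14 * Real.sqrt d ≤ (k : ℝ) - 1 := by
        rw [hk]; push_cast
        have := Nat.le_ceil (14 * Real.sqrt d)
        linarith
      have h2 : (k : ℝ) ≤ 14 * Real.sqrt d + 2 := by
        rw [hk]; push_cast
        have := Nat.ceil_lt_add_one (show 0 ≤ 14 * Real.sqrt d by positivity)
        linarith
      have h3 : k ≤ 2 * d := by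
        have : (k : ℝ) ≤ 2 * d := by nlinarith
        exact_mod_cast this
      have h4 : kc d ≤ k := Nat.sInf_le ⟨by omega, h3, theta_pos_of h h3 h1⟩
      have h5 : (kc d : ℝ) ≤ k := by exact_mod_cast h4
      linarith

end Pool.Agent.Results.MP_8219fb_pr.CriticalSqrt
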